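import Pool.Agent.MP_f6b137_pr.H74.Base

/-! Refining the dyadic grid changes the number of sign changes by a small variance. -/

namespace Pool.Agent.MP_f6b137_pr.H82

open MeasureTheory ProbabilityTheory Pool.Agent.MP_f6b137_pr.H74
open scoped Real RealInnerProductSpace

noncomputable section

variable {D : ℕ}

theorem sum_two (f : ℕ → ℝ) (n : ℕ) :
    ∑ k ∈ Finset.range (2 * n), f k = ∑ k ∈ Finset.range n, (f (2 * k) + f (2 * k + 1)) := by
  induction n with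
  | zero => simp
  | succ n ih =>
    rw [Nat.mul_succ, Finset.sum_range_succ, Finset.sum_range_succ, ih, Finset.sum_range_succ]
    ring

theorem both {x y z : ℝ} (hx : x ≠ 0) (hy : y ≠ 0) (hz : z ≠ 0)
    (h : 1 * chg x y + 1 * chg y z + -1 * chg x z ≠ 0) : x * y < 0 ∧ y * z < 0 := by
  have h0 : 0 < y * y := mul_self_pos.2 hy
  have e : x * y * (y * z) = x * z * (y * y) := by ring
  by_contra hc
  apply h
  unfold chg
  rcases (mul_ne_zero hx hy).lt_or_gt with h1 | h1 <;>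
    rcases (mul_ne_zero hy hz).lt_or_gt with h2 | h2
  · exact absurd ⟨h1, h2⟩ hc
  · have h3 := mul_neg_of_neg_of_pos h1 h2
    have : x * z < 0 := by nlinarith
    rw [if_pos h1, if_neg h2.not_gt, if_pos this]
    norm_num
  · have h3 := mul_neg_of_pos_of_neg h1 h2
    have : x * z < 0 := by nlinarith
    rw [if_neg h1.not_gt, if_pos h2, if_pos this]
    norm_num
  · have h3 := mul_pos h1 h2
    have : 0 < x * z := by nlinarith
    rw [if_neg h1.not_gt, if_neg h2.not_gt, if_neg this.not_gt]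
    norm_num

theorem geo {x y z : ℝ} (h1 : x * y < 0) (h2 : y * z < 0) :
    |y| ≤ |z - 2 * y + x| ∧ |z - x| ≤ |z - 2 * y + x| := by
  rcases lt_trichotomy y 0 with hy | hy | hy
  · have hx : 0 < x := by nlinarith
    have hz : 0 < z := by nlinarith
    rw [abs_of_pos (show 0 < z - 2 * y + x by linarith), abs_le, abs_le]
    refine ⟨⟨?_, ?_⟩, ?_, ?_⟩ <;> linarith
  · simp [hy] at h1
  · have hx : x < 0 := by nlinarith
    have hz : z < 0 := by nlinarith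
    rw [abs_of_neg (show z - 2 * y + x < 0 by linarith), abs_le, abs_le]
    refine ⟨⟨?_, ?_⟩, ?_, ?_⟩ <;> linarith

theorem term (sb : RowSB) {C₀ : ℝ} (hC : 0 ≤ C₀) (ht : ∀ (u : ES D) (t : ℝ), 0 < t →
      (gam D).real {W | t ≤ |⟪u, W⟫|} ≤ C₀ * ‖u‖ ^ 10 / t ^ 10)
    {K : ℝ → ES D} (hK : ∀ t, K t ≠ 0) {κ A lam t w : ℝ} (hκ : 0 < κ) (hl : 0 < lam) (hw : 0 < w)
    (h1 : ∀ α β γ : ℝ, κ ^ 2 * (α ^ 2 + β ^ 2 + γ ^ 2) ≤
      ‖α • (lam • K t) + β • dd1 K lam t (w ^ 4) + γ • dd2 K lam t (w ^ 4)‖ ^ 2)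
    (h2 : ‖dd2 K lam t (w ^ 4)‖ ≤ A) :
    Var[fun W => 1 * sc (K (t - w ^ 4)) (K t) W + 1 * sc (K t) (K (t + w ^ 4)) W +
      -1 * sc (K (t - w ^ 4)) (K (t + w ^ 4)) W; gam D] ≤
      9 * ((C₀ * A ^ 10 + 1 / κ ^ 2) * w ^ 10) := by
  set S₀ : Set (ES D) := {W | ⟪K (t - w ^ 4), W⟫ = (0 : ℝ)} ∪ {W | ⟪K t, W⟫ = (0 : ℝ)} ∪
    {W | ⟪K (t + w ^ 4), W⟫ = (0 : ℝ)} with hS₀
  set S₁ : Set (ES D) := {W | w⁻¹ ≤ |⟪dd2 K lam t (w ^ 4), W⟫|} with hS₁
  set S₂ : Set (ES D) := {W | |⟪lam • K t, W⟫| ≤ w ^ 7 ∧ |⟪dd1 K lam t (w ^ 4), W⟫| ≤ w ^ 3}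
    with hS₂
  have p0 : (gam D).real S₀ = 0 := by
    rw [measureReal_def, measure_union_null (measure_union_null (sb.null D _ (hK _))
      (sb.null D _ (hK _))) (sb.null D _ (hK _))]
    rfl
  have p1 : (gam D).real S₁ ≤ C₀ * A ^ 10 * w ^ 10 := by
    refine (ht _ _ (inv_pos.2 hw)).trans ?_
    rw [inv_pow, div_inv_eq_mul]
    gcongr
  have p2 : (gam D).real S₂ ≤ 1 / κ ^ 2 * w ^ 10 := by
    refine (sb.two D _ _ κ _ _ hκ (by positivity) (by positivity) fun α β => ?_).trans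
      (le_of_eq (by ring))
    simpa using h1 α β 0
  have hv := var_le_of_bad (P := gam D) (f := fun W => 1 * sc (K (t - w ^ 4)) (K t) W +
      1 * sc (K t) (K (t + w ^ 4)) W + -1 * sc (K (t - w ^ 4)) (K (t + w ^ 4)) W)
    ((((measurable_sc _ _).const_mul _).add ((measurable_sc _ _).const_mul _)).add
      ((measurable_sc _ _).const_mul _)) 3 0 le_rfl (S₀ ∪ (S₁ ∪ S₂)) (fun W => by
      have a1 := abs_le.1 (abs_sc_le (K (t - w ^ 4)) (K t) W)
      have a2 := abs_le.1 (abs_sc_le (K t) (K (t + w ^ 4)) W)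
      have a3 := abs_le.1 (abs_sc_le (K (t - w ^ 4)) (K (t + w ^ 4)) W)
      exact abs_le.2 ⟨by linarith, by linarith⟩) (fun W hW => by
      simp only [hS₀, hS₁, hS₂, Set.mem_union, Set.mem_ofPred_eq, not_or, not_le] at hW
      obtain ⟨⟨⟨a1, a2⟩, a3⟩, a4, a5⟩ := hW
      by_contra hne
      obtain ⟨b1, b2⟩ := both a1 a2 a3 fun h => hne (by simp only [sc, h]; norm_num)
      obtain ⟨c1, c2⟩ := geo b1 b2
      apply a5
      simp only [dd1, dd2, real_inner_smul_left, inner_add_left, inner_sub_left, abs_mul] at a4 ⊢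
      rw [abs_of_pos (show 0 < lam / (w ^ 4) ^ 2 by positivity), div_mul_eq_mul_div,
        div_lt_iff₀ (by positivity)] at a4
      have e : w⁻¹ * (w ^ 4) ^ 2 = w ^ 7 := by field_simp
      rw [e] at a4
      rw [abs_of_pos hl, abs_of_pos (show 0 < lam / (2 * w ^ 4) by positivity), div_mul_eq_mul_div,
        div_le_iff₀ (by positivity)]
      have d1 := mul_le_mul_of_nonneg_left c1 hl.le
      have d2 := mul_le_mul_of_nonneg_left c2 hl.le
      have d3 : 0 < w ^ 7 := by positivity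
      have d4 : w ^ 3 * (2 * w ^ 4) = 2 * w ^ 7 := by ring
      constructor <;> linarith)
  have q1 := measureReal_union_le (μ := gam D) S₀ (S₁ ∪ S₂)
  have q2 := measureReal_union_le (μ := gam D) S₁ S₂
  linarith

theorem Sl_succ (K : ℝ → ES D) (N l : ℕ) {h : ℝ} (hh : h = 1 / 2 ^ (l + 1)) (W : ES D) :
    Sl K N (l + 1) W - Sl K N l W = ∑ x ∈ Finset.Ico 1 (N - 1) ×ˢ Finset.range (2 ^ l),
      (1 * sc (K (x.1 + (2 * x.2 + 1) * h - h)) (K (x.1 + (2 * x.2 + 1) * h)) W +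
        1 * sc (K (x.1 + (2 * x.2 + 1) * h)) (K (x.1 + (2 * x.2 + 1) * h + h)) W +
        -1 * sc (K (x.1 + (2 * x.2 + 1) * h - h)) (K (x.1 + (2 * x.2 + 1) * h + h)) W) := by
  unfold Sl
  rw [Finset.sum_product, ← Finset.sum_sub_distrib]
  refine Finset.sum_congr rfl fun j _ => ?_
  rw [Nat.pow_succ', sum_two, ← Finset.sum_sub_distrib]
  refine Finset.sum_congr rfl fun k _ => ?_
  have e1 : (j : ℝ) + ((2 * k : ℕ) : ℝ) / 2 ^ (l + 1) = j + (2 * k + 1) * h - h := by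
    rw [hh]; push_cast; ring
  have e2 : (j : ℝ) + (((2 * k : ℕ) : ℝ) + 1) / 2 ^ (l + 1) = j + (2 * k + 1) * h := by
    rw [hh]; push_cast; ring
  have e3 : (j : ℝ) + ((2 * k + 1 : ℕ) : ℝ) / 2 ^ (l + 1) = j + (2 * k + 1) * h := by
    rw [hh]; push_cast; ring
  have e4 : (j : ℝ) + (((2 * k + 1 : ℕ) : ℝ) + 1) / 2 ^ (l + 1) = j + (2 * k + 1) * h + h := by
    rw [hh]; push_cast; ring
  have e5 : (j : ℝ) + (k : ℝ) / 2 ^ l = j + (2 * k + 1) * h - h := by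
    rw [hh]; field_simp; ring
  have e6 : (j : ℝ) + ((k : ℝ) + 1) / 2 ^ l = j + (2 * k + 1) * h + h := by
    rw [hh]; field_simp; ring
  rw [e1, e2, e3, e4, e5, e6]
  ring

theorem rowTEL : OfTEL := by
  intro bv sb κ A hκ hA
  obtain ⟨C₀, hC, ht⟩ := sb.tail
  have hr0 : 0 < √(√(1 / 2 : ℝ)) := by positivity
  have hr4 : √(√(1 / 2 : ℝ)) ^ 4 = 1 / 2 := by
    rw [show 4 = 2 * 2 from rfl, pow_mul, Real.sq_sqrt (Real.sqrt_nonneg _),
      Real.sq_sqrt (by norm_num)]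
  have hr1 : √(√(1 / 2 : ℝ)) < 1 :=
    lt_of_pow_lt_pow_left₀ 4 zero_le_one (by rw [hr4]; norm_num)
  generalize √(√(1 / 2 : ℝ)) = r at hr0 hr4 hr1
  set C₁ := C₀ * A ^ 10 + 1 / κ ^ 2 with hC₁
  have hC1 : 0 ≤ C₁ := by positivity
  refine ⟨3 * √(A * C₁), r, by positivity, hr0.le, hr1, fun D N K hW l => ?_⟩
  set w := r ^ (l + 1) with hw
  have hw0 : 0 < w := by positivity
  have hw4 : w ^ 4 = 1 / 2 ^ (l + 1) := by
    rw [hw, ← pow_mul, mul_comm, pow_mul, hr4, one_div_pow]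
  have hw5 : 2 ^ l * w ^ 4 = 1 / 2 := by rw [hw4]; field_simp; ring
  have hw6 : 0 < w ^ 4 := by positivity
  have hJ : ∀ x ∈ Finset.Ico 1 (N - 1) ×ˢ Finset.range (2 ^ l), 1 ≤ x.1 ∧ x.1 + 2 ≤ N ∧
      0 < w ^ 4 ∧ (x.1 : ℝ) ≤ x.1 + (2 * x.2 + 1) * w ^ 4 - w ^ 4 ∧
      x.1 + (2 * x.2 + 1) * w ^ 4 + w ^ 4 ≤ (x.1 : ℝ) + 1 := by
    intro x hx
    simp only [Finset.mem_product, Finset.mem_Ico, Finset.mem_range] at hx
    have a1 : (x.2 : ℝ) + 1 ≤ 2 ^ l := by exact_mod_cast hx.2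
    have a2 : (0 : ℝ) ≤ x.2 := Nat.cast_nonneg _
    exact ⟨hx.1.1, by omega, hw6, by nlinarith, by nlinarith⟩
  have hdb := hW.db (ℕ × ℕ) _ Prod.fst (fun x => x.1 + (2 * x.2 + 1) * w ^ 4) (fun _ => w ^ 4)
    (2 ^ l) hJ fun j => by
      refine (Finset.card_le_card_of_injOn (t := Finset.range (2 ^ l)) Prod.snd (fun x hx => ?_)
        fun x hx y hy e => ?_).trans (Finset.card_range _).le
      · exact (Finset.mem_product.1 (Finset.mem_filter.1 hx).1).2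
      · exact Prod.ext ((Finset.mem_filter.1 hx).2.trans (Finset.mem_filter.1 hy).2.symm) e
  have h1 := bv D (ℕ × ℕ) _ _ _ _ _ 1 1 (-1) (by positivity)
    (fun _ _ => ⟨hW.ne _, hW.ne _, hW.ne _⟩) hdb
  have h2 := Finset.sum_le_card_nsmul (Finset.Ico 1 (N - 1) ×ˢ Finset.range (2 ^ l)) _
    (9 * (C₁ * w ^ 10)) fun x hx => by
      obtain ⟨a1, a2, a3, a4, a5⟩ := hJ x hx
      obtain ⟨lam, hl, h⟩ := hW.low x.1 a1 a2
      obtain ⟨b1, b2⟩ := h _ _ a3 a4 a5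
      exact term sb hC (ht D) hW.ne hκ hl hw0 b1 b2
  have h3 : ((Finset.Ico 1 (N - 1) ×ˢ Finset.range (2 ^ l)).card : ℝ) ≤ N * 2 ^ l := by
    rw [Finset.card_product, Nat.card_Ico, Finset.card_range]
    exact_mod_cast Nat.mul_le_mul_right _ (by omega)
  rw [nsmul_eq_mul] at h2
  simp only [Sl_succ K N l hw4]
  refine Real.sqrt_le_iff.2 ⟨by positivity, (h1.trans (mul_le_mul_of_nonneg_left (h2.trans
    (mul_le_mul_of_nonneg_right h3 (by positivity))) (by positivity))).trans ?_⟩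
  have h4 : w ≤ r ^ l := pow_le_pow_of_le_one hr0.le hr1.le (Nat.le_succ l)
  rw [mul_pow, mul_pow, mul_pow, Real.sq_sqrt (by positivity), Real.sq_sqrt (by positivity)]
  push_cast
  calc A * 2 ^ l * (N * 2 ^ l * (9 * (C₁ * w ^ 10)))
      = 9 * (A * C₁) * N * ((2 ^ l * w ^ 4) ^ 2 * w ^ 2) := by ring
    _ ≤ 9 * (A * C₁) * N * (1 * (r ^ l) ^ 2) := by
        rw [hw5]
        gcongr
        norm_num
    _ = _ := by ring

end

end Pool.Agent.MP_f6b137_pr.H82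

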